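import Pool.Agent.Helper77.S7.STARA

/-!
# SQ, stage 7, block STAR
-/

set_option autoImplicit false

namespace Pool.Agent.SQ

open Module

universe u

/-- **BLOCK STAR**: the law of a valuation on the powers of a space is asymptotically star-shaped. -/
theorem star {k K : Type u} [Field k] [CharZero k] [Field K] [Algebra k K] (V : Submodule k K) [FiniteDimensional k V]
    {n : ℕ} (hn : finrank k V = n + 1) {η : ℝ} (hη : 0 < η) : ∃ a M : ℕ, 0 < a ∧ 0 < M ∧ ∀ (ω : K → ℝ) (h : RV k ω) (c : ℝ),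
      (∀ x ∈ V, x ≠ 0 → 0 ≤ ω x + c) → (∀ m : ℕ, ∀ x ∈ V ^ m, x ≠ 0 → ω x + m * c ≤ m) →
        ∀ s l : ℝ, 0 ≤ l → l ≤ 1 → 0 < pl h c V a s →
          ((1 - l) + l * pl h c V a s ^ (1 / (n : ℝ))) ^ n - η ≤ pl h c V M (l * s - η) := by
  obtain ⟨a, -, M, -, ha, hM, H⟩ := star77 V hn hη 1 0
  refine ⟨a, M, ha, hM, fun ω h c h0 h1 s l hl hl1 hp => ?_⟩
  have hV0 : V ≠ ⊥ := by
    rintro rfl
    rw [finrank_bot] at hn
    omega
  have ha' : (0 : ℝ) < a := by exact_mod_cast ha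
  have hfda := fd_pow77 V a
  have hfdM := fd_pow77 V M
  have hDa : (0 : ℝ) < finrank k ↥(V ^ a) := by exact_mod_cast fr_pow_pos77 hV0 a
  have hDM : (0 : ℝ) < finrank k ↥(V ^ M) := by exact_mod_cast fr_pow_pos77 hV0 M
  have hVl : V ≤ lev h (-c) := by
    intro x hx
    by_cases hx0 : x = 0
    · exact Or.inl hx0
    · exact Or.inr (by linarith [h0 x hx hx0])
  have hpl : ∀ (m : ℕ) (x : ℝ), pl h c V m x = (finrank k ↥(V ^ m ⊓ lev h (x * m - m * c)) : ℝ) / finrank k ↥(V ^ m) := by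
    intro m x
    rw [pl, show (m : ℝ) * (x - c) = x * m - m * c by ring]
  obtain ⟨p, hpd⟩ : ∃ p, p = pl h c V a s := ⟨_, rfl⟩
  have hp1 : p ≤ 1 := by
    rw [hpd, pl, div_le_one hDa]
    exact_mod_cast Submodule.finrank_mono inf_le_left
  rw [← hpd] at hp ⊢
  have hy : 0 ≤ p ^ (1 / (n : ℝ)) := Real.rpow_nonneg hp.le _
  have hy1 : p ^ (1 / (n : ℝ)) ≤ 1 := Real.rpow_le_one hp.le hp1 (by positivity)
  have hpD : p * finrank k ↥(V ^ a) = finrank k ↥(V ^ a ⊓ lev h (s * a - a * c)) := by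
    rw [hpd, hpl, div_mul_cancel₀ _ hDa.ne']
  have hne : V ^ a ⊓ lev h (s * a - a * c) ≠ ⊥ := by
    intro h2
    rw [h2, finrank_bot, Nat.cast_zero] at hpD
    exact (mul_pos hp hDa).ne' hpD
  rcases lt_or_ge s 0 with hs | hs
  · have h2 : pl h c V M (l * s - η) = 1 := by
      rw [hpl, inf_eq_left.2, div_self hDM.ne']
      refine (lev_pow77 h hVl M).trans (lev_anti77 h ?_)
      have h3 : l * s ≤ 0 := mul_nonpos_of_nonneg_of_nonpos hl hs.le
      have h4 : (l * s - η) * M ≤ 0 := mul_nonpos_of_nonpos_of_nonneg (by linarith) (Nat.cast_nonneg _)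
      linarith
    rw [h2]
    have h5 : (1 - l) + l * p ^ (1 / (n : ℝ)) ≤ 1 := by nlinarith
    have h6 : 0 ≤ (1 - l) + l * p ^ (1 / (n : ℝ)) := add_nonneg (sub_nonneg.2 hl1) (mul_nonneg hl hy)
    have h7 := pow_le_one₀ (n := n) h6 h5
    linarith
  have hs1 : s ≤ 1 := by
    obtain ⟨x, ⟨hx1, hx2⟩, hx0⟩ := (Submodule.ne_bot_iff _).1 hne
    have h2 := h1 a x hx1 hx0
    rcases hx2 with h3 | h3
    · exact absurd h3 hx0
    · have h4 : s * a ≤ 1 * a := by linarith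
      exact le_of_mul_le_mul_right h4 ha'
  have hyn : (p ^ (1 / (n : ℝ))) ^ n * finrank k ↥(V ^ a) ≤ finrank k ↥(V ^ a ⊓ lev h (s * a - a * c)) := by
    rcases Nat.eq_zero_or_pos n with h2 | h2
    · have h3 := pow_dim77 V hn a
      rw [h2, pow_zero, pow_zero, mul_one] at h3
      rw [h2, pow_zero, one_mul]
      have hfd2 : FiniteDimensional k ↥(V ^ a ⊓ lev h (s * a - a * c)) := Submodule.finiteDimensional_of_le inf_le_left
      have h4 : 0 < finrank k ↥(V ^ a ⊓ lev h (s * a - a * c)) := Nat.pos_of_ne_zero fun h5 => hne (Submodule.finrank_eq_zero.1 h5)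
      exact_mod_cast h3.trans h4
    · rw [one_div, Real.rpow_inv_natCast_pow hp.le h2.ne', hpD]
  have hfin := H ω h c h0 s (p ^ (1 / (n : ℝ))) l hs hs1 hy hy1 hl hl1 hyn hne
  rw [hpl, le_div_iff₀ hDM]
  exact hfin

end Pool.Agent.SQ
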