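import Pool.Agent.Helper42.SQ.BM2g
import Pool.Agent.Helper42.SQ.GROg

/-!
# SQ, stage 7 (all points of bounded degree, projective space), block BMA: Brunn-Minkowski with one exponent
-/

set_option autoImplicit false

namespace Pool.Agent.SQ

open Module

universe u

theorem growth_le77 {g : ℕ} (hg : 2 ≤ g) (D : ℕ → ℕ) (hD : ∀ m, 1 ≤ D m) {w w' q C : ℕ}
    (h1 : ∀ m, g ^ w * D m ≤ D (g * m + q)) (h2 : ∀ m, D m ≤ C * (m + 1) ^ w') : w ≤ w' := by
  have key : ∀ j : ℕ, ∃ M, g ^ (w * j) ≤ D M ∧ M + 1 + q ≤ g ^ j * (q + 1) := by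
    intro j
    induction j with
    | zero => exact ⟨0, by simpa using hD 0, by simp; omega⟩
    | succ j ih =>
      obtain ⟨M, hM1, hM2⟩ := ih
      refine ⟨g * M + q, ?_, ?_⟩
      · calc g ^ (w * (j + 1)) = g ^ w * g ^ (w * j) := by rw [← pow_add]; ring_nf
          _ ≤ g ^ w * D M := Nat.mul_le_mul_left _ hM1
          _ ≤ D (g * M + q) := h1 M
      · calc g * M + q + 1 + q ≤ g * (M + 1 + q) := by nlinarith
          _ ≤ g * (g ^ j * (q + 1)) := Nat.mul_le_mul_left _ hM2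
          _ = g ^ (j + 1) * (q + 1) := by ring
  by_contra hcon
  push Not at hcon
  obtain ⟨C', hC'⟩ : ∃ C', C' = C * (q + 1) ^ w' := ⟨_, rfl⟩
  obtain ⟨M, hM1, hM2⟩ := key C'
  have h3 : g ^ (w * C') ≤ C' * g ^ (w' * C') := by
    calc g ^ (w * C') ≤ D M := hM1
      _ ≤ C * (M + 1) ^ w' := h2 M
      _ ≤ C * (g ^ C' * (q + 1)) ^ w' := Nat.mul_le_mul_left _ (Nat.pow_le_pow_left (by omega) _)
      _ = C' * g ^ (w' * C') := by rw [mul_pow, ← pow_mul, hC']; ring_nf
  have h4 : g ^ C' * g ^ (w' * C') ≤ C' * g ^ (w' * C') := by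
    refine le_trans ?_ h3
    rw [← pow_add]
    exact Nat.pow_le_pow_right (by omega) (by nlinarith)
  have h5 : g ^ C' ≤ C' := Nat.le_of_mul_le_mul_right h4 (Nat.pow_pos (by omega))
  have h6 : C' < g ^ C' := Nat.lt_pow_self (by omega)
  omega

section

variable {k K : Type u} [Field k] [Field K] [Algebra k K]

theorem fd_pow77 (E : Submodule k K) [FiniteDimensional k E] (m : ℕ) : FiniteDimensional k ↥(E ^ m) := by
  have hEfg : E.FG := (Submodule.fg_iff_finiteDimensional E).2 inferInstance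
  exact (Submodule.fg_iff_finiteDimensional _).1 (hEfg.pow m)

theorem pow_ne77 {E : Submodule k K} (hE : E ≠ ⊥) (m : ℕ) : E ^ m ≠ ⊥ := by
  obtain ⟨z, hz, hz0⟩ := (Submodule.ne_bot_iff E).1 hE
  exact (Submodule.ne_bot_iff _).2 ⟨z ^ m, Submodule.pow_mem_pow E hz m, pow_ne_zero _ hz0⟩

theorem fr_pow_pos77 {E : Submodule k K} [FiniteDimensional k E] (hE : E ≠ ⊥) (m : ℕ) : 1 ≤ finrank k ↥(E ^ m) := by
  have := fd_pow77 E m
  exact Nat.pos_of_ne_zero fun h => pow_ne77 hE m (Submodule.finrank_eq_zero.1 h)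

/-- multiplication by a nonzero space does not decrease the dimension -/
theorem fr_mul77 (A B : Submodule k K) [FiniteDimensional k ↥(A * B)] (hB : B ≠ ⊥) : finrank k A ≤ finrank k ↥(A * B) := by
  obtain ⟨b, hb, hb0⟩ := (Submodule.ne_bot_iff B).1 hB
  have hinj : Function.Injective (LinearMap.mulRight k b) := fun x y hxy => by
    rw [LinearMap.mulRight_apply, LinearMap.mulRight_apply] at hxy
    exact mul_right_cancel₀ hb0 hxy
  have h1 : A.map (LinearMap.mulRight k b) ≤ A * B := by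
    rintro _ ⟨a, ha, rfl⟩
    exact Submodule.mul_mem_mul ha hb
  calc finrank k A = finrank k ↥(A.map (LinearMap.mulRight k b)) :=
        (Submodule.equivMapOfInjective _ hinj A).finrank_eq
    _ ≤ finrank k ↥(A * B) := Submodule.finrank_mono h1

theorem fr_pow_mono77 (E : Submodule k K) [FiniteDimensional k E] (hE : E ≠ ⊥) {a b : ℕ} (h : a ≤ b) :
    finrank k ↥(E ^ a) ≤ finrank k ↥(E ^ b) := by
  obtain ⟨c, rfl⟩ := Nat.exists_eq_add_of_le h
  have := fd_pow77 E (a + c)
  rw [pow_add] at this ⊢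
  exact fr_mul77 _ _ (pow_ne77 hE c)

theorem bmg_growth77 {W : Submodule k K} [FiniteDimensional k W] {g : ℕ} (hg : 0 < g) (w q : ℕ) (Q : Submodule k K)
    (hQ : Q ≤ W ^ q) (h : ∀ (m : Fin g → ℕ) (A : Fin g → Submodule k K), (∀ i, A i ≤ W ^ m i) → BMg g w Q A) (m : ℕ) :
    g ^ w * finrank k ↥(W ^ m) ≤ finrank k ↥(W ^ (g * m + q)) := by
  have h1 := h (fun _ => m) (fun _ => W ^ m) fun _ => le_rfl
  unfold BMg at h1
  rw [Finset.prod_const, Finset.prod_const, Finset.card_univ, Fintype.card_fin] at h1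
  have := fd_pow77 W (g * m + q)
  have h2 : (W ^ m) ^ g * Q ≤ W ^ (g * m + q) := by
    rw [pow_add, ← pow_mul, mul_comm g m]
    exact mul_le_mul' le_rfl hQ
  have h3 : (g ^ w * finrank k ↥(W ^ m)) ^ g ≤ finrank k ↥(W ^ (g * m + q)) ^ g := by
    calc (g ^ w * finrank k ↥(W ^ m)) ^ g = g ^ (g * w) * finrank k ↥(W ^ m) ^ g := by
          rw [mul_pow, ← pow_mul, mul_comm w g]
      _ ≤ finrank k ↥((W ^ m) ^ g * Q) ^ g := h1
      _ ≤ _ := Nat.pow_le_pow_left (Submodule.finrank_mono h2) _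
  exact (Nat.pow_le_pow_iff_left hg.ne').1 h3

/-- one exponent for all numbers of factors -/
theorem bm_all77 [CharZero k] (W : Submodule k K) [FiniteDimensional k W] (hW : W ≠ ⊥) :
    ∃ w C : ℕ, (∀ m : ℕ, finrank k ↥(W ^ m) ≤ C * (m + 1) ^ w) ∧ ∀ g : ℕ, 0 < g → ∃ (q : ℕ) (Q : Submodule k K), Q ≤ W ^ q ∧
      ∀ (m : Fin g → ℕ) (A : Fin g → Submodule k K), (∀ i, A i ≤ W ^ m i) → BMg g w Q A := by
  have hD : ∀ m, 1 ≤ finrank k ↥(W ^ m) := fun m => fr_pow_pos77 hW m
  have grow : ∀ g : ℕ, 0 < g → ∀ (w q : ℕ) (Q : Submodule k K), Q ≤ W ^ q →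
      (∀ (m : Fin g → ℕ) (A : Fin g → Submodule k K), (∀ i, A i ≤ W ^ m i) → BMg g w Q A) →
      ∀ m, g ^ w * finrank k ↥(W ^ m) ≤ finrank k ↥(W ^ (g * m + q)) :=
    fun g hg w q Q hQ h m => bmg_growth77 hg w q Q hQ h m
  obtain ⟨w, q2, C, Q2, hQ2, hbm2, hC⟩ := bm2_g (g := 2) (by norm_num) W hW
  refine ⟨w, C, hC, fun g hg => ?_⟩
  obtain ⟨w', q, C', Q, hQ, hbm, hC'⟩ := bm2_g hg W hW
  rcases Nat.lt_or_ge g 2 with hg1 | hg2
  · have hg1 : g = 1 := by omega
    subst hg1
    refine ⟨q, Q, hQ, fun m A hA => ?_⟩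
    have := hbm m A hA
    unfold BMg at this ⊢
    simpa using this
  · have h1 : w ≤ w' := growth_le77 le_rfl _ hD (grow 2 (by norm_num) w q2 Q2 hQ2 hbm2) hC'
    have h2 : w' ≤ w := growth_le77 hg2 _ hD (grow g hg w' q Q hQ hbm) hC
    obtain rfl : w = w' := le_antisymm h1 h2
    exact ⟨q, Q, hQ, hbm⟩

/-- the powers of a space of dimension `n + 1` -/
theorem pow_dim77 (W : Submodule k K) [FiniteDimensional k W] {n : ℕ} (hn : finrank k W = n + 1) (m : ℕ) :
    finrank k ↥(W ^ m) ≤ (n + 1) ^ n * (m + 1) ^ n := by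
  classical
  let b := Module.finBasisOfFinrankEq k W hn
  set x : Fin (n + 1) → K := fun i => (b i : K) with hx
  have hWs : W = Submodule.span k (Set.range x) := by
    have h1 := b.span_eq
    have h2 := congrArg (Submodule.map W.subtype) h1
    rw [Submodule.map_span, Submodule.map_top, Submodule.range_subtype, ← Set.range_comp] at h2
    exact h2.symm
  set mon : (Fin (n + 1) → ℕ) → K := fun α => ∏ i, x i ^ α i with hmon
  have h1 : ∀ m : ℕ, W ^ m ≤ Submodule.span k
      ((((Finset.univ : Finset (Fin (n + 1))).piAntidiag m).image mon : Finset K) : Set K) := by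
    intro m
    induction m with
    | zero =>
      rw [pow_zero, Submodule.one_le]
      refine Submodule.subset_span ?_
      rw [Finset.mem_coe, Finset.mem_image]
      refine ⟨0, ?_, ?_⟩
      · simp
      · simp [hmon]
    | succ m ih =>
      rw [pow_succ]
      refine (mul_le_mul' ih hWs.le).trans ?_
      rw [Submodule.span_mul_span, Submodule.span_le]
      rintro _ ⟨u, hu, v, ⟨i, rfl⟩, rfl⟩
      rw [Finset.mem_coe, Finset.mem_image] at hu
      obtain ⟨α, hα, rfl⟩ := hu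
      refine Submodule.subset_span ?_
      rw [Finset.mem_coe, Finset.mem_image]
      refine ⟨α + Pi.single i 1, ?_, ?_⟩
      · rw [Finset.mem_piAntidiag] at hα ⊢
        refine ⟨?_, fun _ _ => Finset.mem_univ _⟩
        have e : (Finset.univ : Finset (Fin (n + 1))).sum (α + Pi.single i 1) = Finset.univ.sum α + 1 := by
          rw [show (Finset.univ : Finset (Fin (n + 1))).sum (α + Pi.single i 1) =
            ∑ x, (α x + Pi.single (M := fun _ => ℕ) i 1 x) from rfl, Finset.sum_add_distrib]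
          simp
        rw [e, hα.1]
      · simp only [hmon, Pi.add_apply, pow_add, Finset.prod_mul_distrib]
        congr 1
        rw [Finset.prod_eq_single i]
        · simp
        · intro j _ hj
          simp [Pi.single_eq_of_ne hj]
        · simp
  have h2 : finrank k ↥(W ^ m) ≤ ((Finset.univ : Finset (Fin (n + 1))).piAntidiag m).card := by
    have h3 := Submodule.finrank_mono (h1 m)
    refine h3.trans ((finrank_span_finset_le_card _).trans Finset.card_image_le)
  have h3 : ((Finset.univ : Finset (Fin (n + 1))).piAntidiag m).card = (m + n).choose n := by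
    rw [← Finset.map_sym_eq_piAntidiag, Finset.card_map, Finset.sym_univ, Finset.card_univ,
      Sym.card_sym_fin_eq_multichoose, Nat.multichoose_eq, show n + 1 + m - 1 = m + n by omega, Nat.choose_symm_add]
  calc finrank k ↥(W ^ m) ≤ (m + n).choose n := h2.trans h3.le
    _ ≤ (m + n) ^ n := Nat.choose_le_pow _ _
    _ ≤ ((n + 1) * (m + 1)) ^ n := Nat.pow_le_pow_left (by nlinarith) _
    _ = _ := mul_pow _ _ _

/-- **BLOCK BMA**: Brunn-Minkowski with one `w` for all numbers of factors; `w + 1 ≤ dim V`. -/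
theorem bm_all {k K : Type u} [Field k] [CharZero k] [Field K] [Algebra k K] (W : Submodule k K) [FiniteDimensional k W]
    {n : ℕ} (hn : finrank k W = n + 1) : ∃ w C : ℕ, w ≤ n ∧ (∀ m : ℕ, finrank k ↥(W ^ m) ≤ C * (m + 1) ^ w) ∧
      ∀ g : ℕ, 0 < g → ∃ (q : ℕ) (Q : Submodule k K), Q ≤ W ^ q ∧
        ∀ (m : Fin g → ℕ) (A : Fin g → Submodule k K), (∀ i, A i ≤ W ^ m i) → BMg g w Q A := by
  have hW : W ≠ ⊥ := by
    rintro rfl
    rw [finrank_bot] at hn
    omega
  obtain ⟨w, C, hC, hbm⟩ := bm_all77 W hW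
  refine ⟨w, C, ?_, hC, hbm⟩
  obtain ⟨q, Q, hQ, hb⟩ := hbm 2 (by norm_num)
  exact growth_le77 (g := 2) le_rfl (fun m => finrank k ↥(W ^ m)) (fun m => fr_pow_pos77 hW m) (q := q)
    (bmg_growth77 (by norm_num) w q Q hQ hb) (pow_dim77 W hn)

end

end Pool.Agent.SQ
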