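import Pool.Agent.Helper77.S7.BMA
import Pool.Agent.Helper21.S7.Defs7

/-!
# SQ, stage 7, block STAR: the star-shape of the law
-/

set_option autoImplicit false

namespace Pool.Agent.SQ

open Module

universe u

/-! ### real numbers -/

theorem pow_add_le77 (w : ℕ) {x d : ℝ} (hx : 0 ≤ x) (hx1 : x ≤ 1) (hd : 0 ≤ d) (hd1 : d ≤ 1) :
    (x + d) ^ w ≤ x ^ w + w * 2 ^ w * d := by
  induction w with
  | zero => simp
  | succ w ih =>
    have h1 : x ^ w ≤ 1 := pow_le_one₀ hx hx1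
    have h2 : (0 : ℝ) ≤ w * 2 ^ w * d := by positivity
    have h3 : (1 : ℝ) ≤ 2 ^ w := one_le_pow₀ (by norm_num)
    calc (x + d) ^ (w + 1) = (x + d) * (x + d) ^ w := by ring
      _ ≤ (x + d) * (x ^ w + w * 2 ^ w * d) := mul_le_mul_of_nonneg_left ih (by positivity)
      _ = x ^ (w + 1) + d * x ^ w + (x + d) * (w * 2 ^ w * d) := by ring
      _ ≤ x ^ (w + 1) + d * 1 + 2 * (w * 2 ^ w * d) := by
          have : (x + d) * (w * 2 ^ w * d) ≤ 2 * (w * 2 ^ w * d) := mul_le_mul_of_nonneg_right (by linarith) h2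
          have : d * x ^ w ≤ d * 1 := mul_le_mul_of_nonneg_left h1 hd
          linarith
      _ ≤ x ^ (w + 1) + ((w + 1 : ℕ) : ℝ) * 2 ^ (w + 1) * d := by
          push_cast
          rw [pow_succ (2 : ℝ) w]
          have : d * 1 ≤ d * (2 ^ w * 2) := mul_le_mul_of_nonneg_left (by linarith) hd
          nlinarith

theorem conv77 {n w : ℕ} (hw : 0 < w) (hwn : w ≤ n) {y : ℝ} (hy : 0 ≤ y) (hy1 : y ≤ 1) :
    ∃ ρ : ℝ, 0 ≤ ρ ∧ ρ ≤ 1 ∧ ρ ^ w = y ^ n ∧ ∀ l : ℝ, 0 ≤ l → l ≤ 1 → ((1 - l) + l * y) ^ n ≤ ((1 - l) + l * ρ) ^ w := by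
  have hw' : (0 : ℝ) < w := by exact_mod_cast hw
  have hp : 1 ≤ (n : ℝ) / w := by rw [one_le_div hw']; exact_mod_cast hwn
  have hr : ∀ z : ℝ, 0 ≤ z → (z ^ ((n : ℝ) / w)) ^ w = z ^ n := by
    intro z hz
    rw [← Real.rpow_natCast (z ^ ((n : ℝ) / w)), ← Real.rpow_mul hz, div_mul_cancel₀ _ hw'.ne', Real.rpow_natCast]
  refine ⟨y ^ ((n : ℝ) / w), Real.rpow_nonneg hy _, Real.rpow_le_one hy hy1 (by positivity), hr y hy, fun l hl hl1 => ?_⟩
  have h1 := (convexOn_rpow hp).2 (Set.mem_Ici.2 zero_le_one) (Set.mem_Ici.2 hy) (sub_nonneg.2 hl1) hl (by ring)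
  simp only [smul_eq_mul, mul_one, Real.one_rpow] at h1
  have h0 : 0 ≤ (1 - l) + l * y := add_nonneg (sub_nonneg.2 hl1) (mul_nonneg hl hy)
  rw [← hr _ h0]
  exact pow_le_pow_left₀ (Real.rpow_nonneg h0 _) h1 _

/-- the level of the product -/
theorem lvl77 {l s η L A B E b q0 qs t : ℝ} (hl : 0 ≤ l) (hl1 : l ≤ 1) (hs : 0 ≤ s) (hsB : s ≤ B) (hB : 1 ≤ B) (hE : 1 ≤ E)
    (hη : 0 < η) (hA : 0 < A) (hL : 1 ≤ L) (hb : 0 ≤ b) (hq0 : 0 ≤ q0) (hqs : 0 ≤ qs) (ht : 0 ≤ t)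
    (htA : l * L < (t + 1) * A) (hAL : 16 * E * B * A ≤ L * η) (hbq : 2 * B * q0 ≤ η * b) :
    (l * s - η) * (L * b + q0) ≤ t * s * (A * b + qs) := by
  have h2 : s * ((l * L - A) * b) ≤ s * (t * (A * b + qs)) := by
    refine mul_le_mul_of_nonneg_left ?_ hs
    calc (l * L - A) * b ≤ (t * A) * b := mul_le_mul_of_nonneg_right (by linarith) hb
      _ ≤ (t * A) * b + t * qs := le_add_of_nonneg_right (mul_nonneg ht hqs)
      _ = t * (A * b + qs) := by ring
  have h7 : s * A ≤ B * A := mul_le_mul_of_nonneg_right hsB hA.le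
  have h8 : 16 * (B * A) ≤ 16 * E * B * A := by
    have h9 : 0 ≤ B * A := by positivity
    calc 16 * (B * A) = 16 * 1 * (B * A) := by ring
      _ ≤ 16 * E * (B * A) := by
          refine mul_le_mul_of_nonneg_right ?_ h9
          linarith
      _ = _ := by ring
  have h15 : 0 ≤ L * η := mul_nonneg (by linarith) hη.le
  have h5 : (s * A) * b ≤ (η / 2 * L) * b := mul_le_mul_of_nonneg_right (by linarith) hb
  have h10 : l * s ≤ B := (mul_le_mul hl1 hsB hs zero_le_one).trans (by rw [one_mul])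
  have h11 : l * s * q0 ≤ B * q0 := mul_le_mul_of_nonneg_right h10 hq0
  have h13 : (η / 2 * b) * 1 ≤ (η / 2 * b) * L := mul_le_mul_of_nonneg_left hL (by positivity)
  have h14 : 0 ≤ η * q0 := by positivity
  have e1 : (l * s - η) * (L * b + q0) = s * ((l * L - A) * b) + (s * A) * b - 2 * ((η / 2 * L) * b) + l * s * q0 - η * q0 := by
    ring
  have e2 : t * s * (A * b + qs) = s * (t * (A * b + qs)) := by ring
  have e3 : (η / 2 * b) * L = (η / 2 * L) * b := by ring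
  rw [e1, e2]
  linarith

theorem fin77 {x q D Z : ℝ} (hx0 : 0 ≤ x) (hx1 : x ≤ 1) (hq : 0 ≤ q) (hD0 : 0 ≤ D) (hD : D ≤ (1 + q) * Z) (hZ : 0 ≤ Z) :
    (x - q) * D ≤ x * Z := by
  rcases le_or_gt (x - q) 0 with h5 | h5
  · exact (mul_nonpos_of_nonpos_of_nonneg h5 hD0).trans (mul_nonneg hx0 hZ)
  · have h6 : (x - q) * (1 + q) ≤ x := by nlinarith
    calc (x - q) * D ≤ (x - q) * ((1 + q) * Z) := mul_le_mul_of_nonneg_left hD h5.le
      _ = ((x - q) * (1 + q)) * Z := by ring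
      _ ≤ x * Z := mul_le_mul_of_nonneg_right h6 hZ

/-- the number of factors -/
theorem cnt77 {l ρ δ L A t1 t2 u : ℝ} (hl : 0 ≤ l) (hl1 : l ≤ 1) (hρ0 : 0 ≤ ρ) (hρ1 : ρ ≤ 1) (hδ0 : 0 < δ) (hρδ : δ ≤ ρ)
    (hA : 0 < A) (hL : 0 < L) (ht1 : 0 ≤ t1) (hu1 : ρ * A ≤ u) (hu2 : u < ρ * A + 1)
    (ht1b : (1 - l) * L < (t1 + 1) * u) (ht2c : l * L < (t2 + 1) * A) :
    ((1 - l) + l * ρ) - (1 / (δ * A) + 2 * A / L) ≤ (t2 + t1) * ρ * A / L := by
  have h0 : 0 ≤ 1 - l := sub_nonneg.2 hl1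
  have h1 : (1 - l) * L * (1 - 1 / (δ * A)) ≤ (t1 + 1) * (ρ * A) := by
    have h2 : (1 - 1 / (δ * A)) * u ≤ ρ * A := by
      have h3 : δ * A ≤ u := (mul_le_mul_of_nonneg_right hρδ hA.le).trans hu1
      have h4 : 1 ≤ u / (δ * A) := by rwa [one_le_div (by positivity)]
      have h5 : (1 - 1 / (δ * A)) * u = u - u / (δ * A) := by ring
      rw [h5]
      linarith
    rcases le_or_gt (1 - 1 / (δ * A)) 0 with h6 | h6
    · exact (mul_nonpos_of_nonneg_of_nonpos (by positivity) h6).trans (by positivity)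
    · calc (1 - l) * L * (1 - 1 / (δ * A)) ≤ (t1 + 1) * u * (1 - 1 / (δ * A)) :=
            mul_le_mul_of_nonneg_right ht1b.le h6.le
        _ = (t1 + 1) * ((1 - 1 / (δ * A)) * u) := by ring
        _ ≤ (t1 + 1) * (ρ * A) := mul_le_mul_of_nonneg_left h2 (by positivity)
  have h7 : l * L * ρ ≤ (t2 + 1) * A * ρ := mul_le_mul_of_nonneg_right ht2c.le hρ0
  have h8 : 2 * A / L * L = 2 * A := by field_simp
  have h9 : 0 ≤ 1 / (δ * A) := by positivity
  have h10 : (1 - l) * L * (1 / (δ * A)) ≤ L * (1 / (δ * A)) := by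
    refine mul_le_mul_of_nonneg_right ?_ h9
    calc (1 - l) * L ≤ 1 * L := mul_le_mul_of_nonneg_right (by linarith) hL.le
      _ = L := one_mul _
  have h11 : ρ * A ≤ 1 * A := mul_le_mul_of_nonneg_right hρ1 hA.le
  rw [le_div_iff₀ hL]
  have e : (1 - l + l * ρ - (1 / (δ * A) + 2 * A / L)) * L =
      (1 - l) * L + l * L * ρ - L * (1 / (δ * A)) - 2 * A / L * L := by ring
  have e2 : (t2 + t1) * ρ * A = (t2 + 1) * A * ρ + (t1 + 1) * (ρ * A) - 2 * (ρ * A) := by ring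
  have e3 : (1 - l) * L * (1 - 1 / (δ * A)) = (1 - l) * L - (1 - l) * L * (1 / (δ * A)) := by ring
  rw [e3] at h1
  rw [e, h8, e2]
  linarith

section

variable {k K : Type u} [Field k] [Field K] [Algebra k K]

section

variable {ω : K → ℝ} (h : RV k ω)

theorem lev_mul77 (a b : ℝ) : lev h a * lev h b ≤ lev h (a + b) := by
  rw [Submodule.mul_le]
  rintro x (rfl | hx) y hy
  · rw [zero_mul]; exact Or.inl rfl
  rcases hy with rfl | hy
  · rw [mul_zero]; exact Or.inl rfl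
  by_cases hx0 : x = 0
  · rw [hx0, zero_mul]; exact Or.inl rfl
  by_cases hy0 : y = 0
  · rw [hy0, mul_zero]; exact Or.inl rfl
  right
  rw [h.mul x y hx0 hy0]
  exact add_le_add hx hy

theorem lev_anti77 {a b : ℝ} (hab : a ≤ b) : lev h b ≤ lev h a := by
  rintro x (hx | hx)
  · exact Or.inl hx
  · exact Or.inr (hab.trans hx)

theorem one_lev77 : (1 : Submodule k K) ≤ lev h 0 := by
  rw [Submodule.one_le]
  right
  have := h.alg 1 one_ne_zero
  rw [map_one] at this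
  exact this.ge

theorem lev_pow77 {E : Submodule k K} {c : ℝ} (hE : E ≤ lev h c) (m : ℕ) : E ^ m ≤ lev h (m * c) := by
  induction m with
  | zero =>
    rw [pow_zero, Nat.cast_zero, zero_mul]
    exact one_lev77 h
  | succ m ih =>
    rw [pow_succ]
    refine (mul_le_mul' ih hE).trans ((lev_mul77 h _ _).trans (le_of_eq ?_))
    push_cast
    ring_nf

/-- packing -/
theorem pack77 {c : ℝ} {V : Submodule k K} (hV : V ≤ lev h (-c)) {s : ℝ} {a t d M : ℕ} (hM : t * a + d = M)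
    {A X : Submodule k K} (hA : A ≤ V ^ a ⊓ lev h (s * a - a * c)) (hX : X ≤ V ^ d) :
    A ^ t * X ≤ V ^ M ⊓ lev h (t * s * a - M * c) := by
  refine le_inf ?_ ?_
  · rw [← hM, pow_add, mul_comm t a, pow_mul]
    exact mul_le_mul' (pow_le_pow_left' (hA.trans inf_le_left) _) hX
  · refine (mul_le_mul' (lev_pow77 h (hA.trans inf_le_right) t) (hX.trans (lev_pow77 h hV d))).trans
      ((lev_mul77 h _ _).trans (le_of_eq ?_))
    congr 1
    rw [← hM]
    push_cast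
    ring

end

/-- Brunn-Minkowski for factors of dimension at least `x` -/
theorem bm_min77 {g w : ℕ} (hg : 0 < g) {Q : Submodule k K} {A : Fin g → Submodule k K} (h : BMg g w Q A) {x : ℝ} (hx : 0 ≤ x)
    (hA : ∀ i, x ≤ finrank k (A i)) : (g : ℝ) ^ w * x ≤ finrank k ↥((∏ i, A i) * Q) := by
  unfold BMg at h
  have h1 : ((g : ℝ) ^ w * x) ^ g ≤ (finrank k ↥((∏ i, A i) * Q) : ℝ) ^ g := by
    calc ((g : ℝ) ^ w * x) ^ g = (g : ℝ) ^ (g * w) * ∏ _i : Fin g, x := by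
          rw [mul_pow, ← pow_mul, mul_comm w g, Finset.prod_const, Finset.card_univ, Fintype.card_fin]
      _ ≤ (g : ℝ) ^ (g * w) * ∏ i, (finrank k (A i) : ℝ) := by
          refine mul_le_mul_of_nonneg_left (Finset.prod_le_prod (fun i _ => hx) fun i _ => hA i) (by positivity)
      _ ≤ _ := by exact_mod_cast h
  exact (pow_le_pow_iff_left₀ (by positivity) (Nat.cast_nonneg _) hg.ne').1 h1

theorem star77 [CharZero k] (V : Submodule k K) [FiniteDimensional k V] {n : ℕ} (hV : finrank k V = n + 1) {η : ℝ}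
    (hη : 0 < η) (B : ℝ) (m0 : ℕ) :
    ∃ a ≥ m0, ∃ M ≥ m0, 0 < a ∧ 0 < M ∧ ∀ (ω : K → ℝ) (hω : RV k ω) (c : ℝ), (∀ x ∈ V, x ≠ 0 → 0 ≤ ω x + c) →
      ∀ s y l : ℝ, 0 ≤ s → s ≤ B → 0 ≤ y → y ≤ 1 → 0 ≤ l → l ≤ 1 →
        y ^ n * finrank k ↥(V ^ a) ≤ finrank k ↥(V ^ a ⊓ lev hω (s * a - a * c)) →
        V ^ a ⊓ lev hω (s * a - a * c) ≠ ⊥ →
        (((1 - l) + l * y) ^ n - η) * finrank k ↥(V ^ M) ≤ finrank k ↥(V ^ M ⊓ lev hω ((l * s - η) * M - M * c)) := by
  classical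
  have hV0 : V ≠ ⊥ := by
    rintro rfl
    rw [finrank_bot] at hV
    omega
  have hD1 : ∀ m, 1 ≤ finrank k ↥(V ^ m) := fun m => fr_pow_pos77 hV0 m
  have hfd : ∀ m, FiniteDimensional k ↥(V ^ m) := fun m => fd_pow77 V m
  obtain ⟨w, C, hC, hbm⟩ := bm_all77 V hV0
  choose! qf Q hQ hb using hbm
  -- (R)
  have R : ∀ (u b e : ℕ), 0 < u → qf u ≤ e → (u : ℝ) ^ w * finrank k ↥(V ^ b) ≤ finrank k ↥(V ^ (u * b + e)) := by
    intro u b e hu he
    have h1 := bm_min77 hu (hb u hu (fun _ => b) (fun _ => V ^ b) fun _ => le_rfl) (Nat.cast_nonneg (finrank k ↥(V ^ b)))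
      fun _ => le_rfl
    refine h1.trans ?_
    rw [Finset.prod_const, Finset.card_univ, Fintype.card_fin]
    have h2 : (V ^ b) ^ u * Q u ≤ V ^ (u * b + qf u) := by
      rw [pow_add, ← pow_mul, mul_comm u b]
      exact mul_le_mul' le_rfl (hQ u hu)
    exact_mod_cast (Submodule.finrank_mono h2).trans (fr_pow_mono77 V hV0 (by omega))
  have hwn : w ≤ n := by
    refine growth_le77 (g := 2) le_rfl (fun m => finrank k ↥(V ^ m)) hD1 (q := qf 2) (C := (n + 1) ^ n) (fun m => ?_)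
      (pow_dim77 V hV)
    have := R 2 m (qf 2) (by norm_num) le_rfl
    exact_mod_cast this
  -- constants
  set E : ℝ := w * 2 ^ w + 1 with hE
  have hE1 : 1 ≤ E := by rw [hE]; have : (0 : ℝ) ≤ w * 2 ^ w := by positivity
                         linarith
  obtain ⟨η1, hη1, hη11, hη1η⟩ : ∃ η1 : ℝ, 0 < η1 ∧ η1 ≤ 1 ∧ η1 ≤ η :=
    ⟨min η 1, lt_min hη one_pos, min_le_right _ _, min_le_left _ _⟩
  obtain ⟨B', hB'1, hB'⟩ : ∃ B' : ℝ, 1 ≤ B' ∧ B ≤ B' := ⟨max B 1, le_max_right _ _, le_max_left _ _⟩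
  -- the threshold
  obtain ⟨δ, hδ0, hδ⟩ : ∃ δ : ℝ, 0 < δ ∧ δ * E ≤ η1 / 4 := by
    refine ⟨η1 / 4 / E, by positivity, le_of_eq ?_⟩
    field_simp
  have hδ1 : δ ≤ 1 := by
    have := mul_le_mul_of_nonneg_left hE1 hδ0.le
    linarith
  obtain ⟨A, hA⟩ := exists_nat_gt (8 * E / (δ * η1))
  have hA0 : (0 : ℝ) < A := lt_trans (by positivity) hA
  have hA' : 8 * E < A * (δ * η1) := by rwa [div_lt_iff₀ (by positivity)] at hA
  have hAn : 2 ≤ A := by
    have h1 : (1 : ℝ) < A := by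
      have h2 : δ * η1 ≤ 1 := mul_le_one₀ hδ1 hη1.le hη11
      have h3 := mul_le_mul_of_nonneg_left h2 hA0.le
      linarith
    exact_mod_cast h1
  obtain ⟨A2, hA2⟩ := exists_nat_gt (16 * E * B' / η1)
  have hA2' : 16 * E * B' < A2 * η1 := by rwa [div_lt_iff₀ hη1] at hA2
  have hA20 : (0 : ℝ) < A2 := lt_trans (by positivity) hA2
  obtain ⟨L, hL⟩ : ∃ L : ℕ, L = A * A2 + 1 := ⟨_, rfl⟩
  have hLr : (L : ℝ) = A * A2 + 1 := by rw [hL]; push_cast; ring
  have hL0 : (0 : ℝ) < L := by rw [hLr]; positivity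
  have hALn : A ≤ L := by
    have h1 : 0 < A2 := by exact_mod_cast hA20
    rw [hL]
    exact (Nat.le_mul_of_pos_right A h1).trans (Nat.le_succ _)
  have hAL : 16 * E * B' * A ≤ L * η1 := by
    have h1 := mul_le_mul_of_nonneg_right hA2'.le hA0.le
    have e : ((A : ℝ) * A2 + 1) * η1 = A2 * η1 * A + η1 := by ring
    rw [hLr, e]
    linarith
  obtain ⟨qs, hqs⟩ : ∃ qs : ℕ, ∀ g ≤ L, qf g ≤ qs :=
    ⟨(Finset.range (L + 1)).sup qf, fun g hg => Finset.le_sup (Finset.mem_range.2 (by omega))⟩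
  obtain ⟨q0, hq0⟩ : ∃ q0 : ℕ, q0 = (L + 1) * qs + qs := ⟨_, rfl⟩
  obtain ⟨b0, hb0⟩ := exists_nat_gt (2 * B' * q0 / η1)
  obtain ⟨b, hbge, hbg⟩ := gro_g (g := L) (by omega) (fun m => finrank k ↥(V ^ m)) hD1 w C hC q0
    (ε := η1 / 4) (by positivity) (max (max b0 m0) 1)
  have hb1 : 1 ≤ b := (le_max_right _ _).trans hbge
  have hbm0 : m0 ≤ b := ((le_max_right _ _).trans (le_max_left _ _)).trans hbge
  have hbb0 : b0 ≤ b := ((le_max_left _ _).trans (le_max_left _ _)).trans hbge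
  have hbq : 2 * B' * q0 ≤ η1 * b := by
    have h1 : 2 * B' * q0 / η1 < b := hb0.trans_le (by exact_mod_cast hbb0)
    rw [div_lt_iff₀ hη1] at h1
    linarith
  obtain ⟨a, ha⟩ : ∃ a : ℕ, a = A * b + qs := ⟨_, rfl⟩
  obtain ⟨M, hM⟩ : ∃ M : ℕ, M = L * b + q0 := ⟨_, rfl⟩
  rw [← hM] at hbg
  have hab : b ≤ a := by
    rw [ha]
    exact (Nat.le_mul_of_pos_left b (by omega : 0 < A)).trans (Nat.le_add_right _ _)
  have hMb : b ≤ M := by
    rw [hM]
    exact (Nat.le_mul_of_pos_left b (by omega : 0 < L)).trans (Nat.le_add_right _ _)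
  refine ⟨a, hbm0.trans hab, M, hbm0.trans hMb, by omega, by omega, ?_⟩
  intro ω hω c h0 s y l hs hsB hy hy1 hl hl1 hya hne
  have hVl : V ≤ lev hω (-c) := by
    intro x hx
    by_cases hx0 : x = 0
    · exact Or.inl hx0
    · exact Or.inr (by linarith [h0 x hx hx0])
  obtain ⟨Aa, hAa⟩ : ∃ Aa, Aa = V ^ a ⊓ lev hω (s * a - a * c) := ⟨_, rfl⟩
  rw [← hAa] at hya hne
  have hAa' : Aa ≤ V ^ a ⊓ lev hω (s * a - a * c) := hAa.le
  obtain ⟨Db, hDb⟩ : ∃ Db : ℝ, Db = finrank k ↥(V ^ b) := ⟨_, rfl⟩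
  have hDb0 : 1 ≤ Db := by rw [hDb]; exact_mod_cast hD1 b
  have hDM : (finrank k ↥(V ^ M) : ℝ) ≤ (1 + η1 / 4) * L ^ w * Db := by rw [hDb]; exact hbg
  have hDa : (A : ℝ) ^ w * Db ≤ finrank k ↥(V ^ a) := by
    rw [ha, hDb]
    exact R A b qs (by omega) (hqs A hALn)
  set t2 : ℕ := ⌊l * L / A⌋₊ with ht2
  have ht2a : (t2 : ℝ) * A ≤ l * L := by
    have : (t2 : ℝ) ≤ l * L / A := Nat.floor_le (by positivity)
    rwa [le_div_iff₀ hA0] at this
  have ht2b : l * L / A < t2 + 1 := Nat.lt_floor_add_one _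
  have ht2c : l * L < (t2 + 1) * A := by rwa [div_lt_iff₀ hA0] at ht2b
  -- the level
  have hlev : (l * s - η) * M - M * c ≤ t2 * s * a - M * c := by
    have h1 : (l * s - η1) * M ≤ t2 * s * a := by
      have e1 : (a : ℝ) = A * b + qs := by rw [ha]; push_cast; ring
      have e2 : (M : ℝ) = L * b + q0 := by rw [hM]; push_cast; ring
      rw [e1, e2]
      exact lvl77 hl hl1 hs (hsB.trans hB') hB'1 hE1 hη1 hA0 (by rw [hLr]; linarith [mul_pos hA0 hA20])
        (Nat.cast_nonneg _) (Nat.cast_nonneg _) (Nat.cast_nonneg _) (Nat.cast_nonneg _) ht2c hAL hbq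
    have h15 : (l * s - η) * M ≤ (l * s - η1) * M := mul_le_mul_of_nonneg_right (by linarith) (Nat.cast_nonneg _)
    linarith
  -- reduction to a product
  have hred : ∀ (X : Submodule k K) (d : ℕ), X ≤ V ^ d → t2 * a + d ≤ M → ∀ z : ℝ, z ≤ finrank k ↥(Aa ^ t2 * X) →
      z ≤ finrank k ↥(V ^ M ⊓ lev hω ((l * s - η) * M - M * c)) := by
    intro X d hX hd z hz
    obtain ⟨j, hj⟩ := Nat.exists_eq_add_of_le hd
    have h1 : Aa ^ t2 * (X * V ^ j) ≤ V ^ M ⊓ lev hω (t2 * s * a - M * c) :=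
      pack77 hω hVl (by omega : t2 * a + (d + j) = M) hAa' (by rw [pow_add]; exact mul_le_mul' hX le_rfl)
    have h2 : Aa ^ t2 * (X * V ^ j) ≤ V ^ M ⊓ lev hω ((l * s - η) * M - M * c) :=
      h1.trans (inf_le_inf le_rfl (lev_anti77 hω hlev))
    have hfd2 : FiniteDimensional k ↥(V ^ M ⊓ lev hω ((l * s - η) * M - M * c)) :=
      Submodule.finiteDimensional_of_le inf_le_left
    have hfd1 : FiniteDimensional k ↥(Aa ^ t2 * X * V ^ j) := by
      rw [mul_assoc]; exact Submodule.finiteDimensional_of_le h2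
    have h3 := fr_mul77 (Aa ^ t2 * X) (V ^ j) (pow_ne77 hV0 j)
    have h4 : finrank k ↥(Aa ^ t2 * X * V ^ j) ≤ finrank k ↥(V ^ M ⊓ lev hω ((l * s - η) * M - M * c)) := by
      have h5 := Submodule.finrank_mono h2
      rwa [← mul_assoc] at h5
    exact hz.trans (by exact_mod_cast h3.trans h4)
  have hl1' : (0 : ℝ) ≤ 1 - l := sub_nonneg.2 hl1
  -- second case
  have case2 : ∀ T : ℝ, T ≤ (1 - l) ^ w + η1 / 4 → (T - η) * finrank k ↥(V ^ M) ≤
      finrank k ↥(V ^ M ⊓ lev hω ((l * s - η) * M - M * c)) := by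
    intro T hT
    have hu : t2 * A < L := by
      have h1 : (t2 : ℝ) * A ≤ L := ht2a.trans (mul_le_of_le_one_left hL0.le hl1)
      have h2 : t2 * A ≤ L := by exact_mod_cast h1
      refine lt_of_le_of_ne h2 fun h3 => ?_
      have h4 : A ∣ A * A2 + 1 := by rw [← hL, ← h3]; exact Dvd.intro_left t2 rfl
      have h5 : A ∣ 1 := (Nat.dvd_add_right (Dvd.intro A2 rfl)).1 h4
      have := Nat.le_of_dvd one_pos h5
      omega
    obtain ⟨u, hu'⟩ := Nat.exists_eq_add_of_lt hu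
    obtain ⟨u1, hu1⟩ : ∃ u1, u1 = u + 1 := ⟨_, rfl⟩
    have hu2 : L = t2 * A + u1 := by omega
    have hu3 : (u1 : ℝ) = L - t2 * A := by rw [hu2]; push_cast; ring
    have ht2L : t2 ≤ L := by
      have : t2 * 1 ≤ t2 * A := Nat.mul_le_mul_left _ (by omega)
      omega
    refine hred (V ^ (u1 * b + qs)) (u1 * b + qs) le_rfl ?_ _ ?_
    · rw [ha, hM, hq0]
      have e : L * b = t2 * (A * b) + u1 * b := by rw [hu2]; ring
      rw [e]
      have h1 : t2 * qs ≤ L * qs := Nat.mul_le_mul_right _ ht2L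
      have e2 : t2 * (A * b + qs) + (u1 * b + qs) = t2 * (A * b) + u1 * b + (t2 * qs + qs) := by ring
      have e3 : t2 * (A * b) + u1 * b + ((L + 1) * qs + qs) = t2 * (A * b) + u1 * b + (L * qs + qs + qs) := by ring
      rw [e2, e3]
      exact Nat.add_le_add_left (by omega) _
    · have hfd3 : FiniteDimensional k ↥(V ^ (u1 * b + qs) * Aa ^ t2) := by
        have hle : V ^ (u1 * b + qs) * Aa ^ t2 ≤ V ^ (u1 * b + qs + a * t2) := by
          calc V ^ (u1 * b + qs) * Aa ^ t2 ≤ V ^ (u1 * b + qs) * (V ^ a) ^ t2 :=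
                mul_le_mul' le_rfl (pow_le_pow_left' (hAa'.trans inf_le_left) _)
            _ = V ^ (u1 * b + qs + a * t2) := by rw [← pow_mul, ← pow_add]
        have := hfd (u1 * b + qs + a * t2)
        exact Submodule.finiteDimensional_of_le hle
      have h1 := fr_mul77 (V ^ (u1 * b + qs)) (Aa ^ t2) (pow_ne77 hne t2)
      have h2 := R u1 b qs (by omega) (hqs u1 (by omega))
      have h3 : ((1 - l) * L) ^ w ≤ (u1 : ℝ) ^ w := by
        refine pow_le_pow_left₀ (by positivity) ?_ _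
        rw [hu3]; linarith
      have h4 : (1 - l) ^ w ≤ 1 := pow_le_one₀ hl1' (by linarith)
      calc (T - η) * finrank k ↥(V ^ M) ≤ ((1 - l) ^ w - η1 / 4) * finrank k ↥(V ^ M) := by
            refine mul_le_mul_of_nonneg_right ?_ (Nat.cast_nonneg _)
            linarith
        _ ≤ (1 - l) ^ w * (L ^ w * Db) :=
            fin77 (by positivity) h4 (by positivity) (Nat.cast_nonneg _) (by rw [← mul_assoc]; exact hDM) (by positivity)
        _ ≤ (u1 : ℝ) ^ w * Db := by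
            rw [← mul_assoc, ← mul_pow]
            exact mul_le_mul_of_nonneg_right h3 (by positivity)
        _ ≤ finrank k ↥(V ^ (u1 * b + qs)) := by rw [hDb]; exact h2
        _ ≤ finrank k ↥(Aa ^ t2 * V ^ (u1 * b + qs)) := by
            rw [mul_comm (Aa ^ t2)]
            exact_mod_cast h1
  rcases Nat.eq_zero_or_pos w with hw0 | hw0
  · refine case2 _ ?_
    rw [hw0, pow_zero]
    have h1 := mul_le_of_le_one_right hl hy1
    have : ((1 - l) + l * y) ^ n ≤ 1 := pow_le_one₀ (by positivity) (by linarith)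
    linarith
  obtain ⟨ρ, hρ0, hρ1, hρy, hρc⟩ := conv77 hw0 hwn hy hy1
  have hX := hρc l hl hl1
  rcases lt_or_ge ρ δ with hρδ | hρδ
  · refine case2 _ (hX.trans ?_)
    calc ((1 - l) + l * ρ) ^ w ≤ ((1 - l) + δ) ^ w := by
          refine pow_le_pow_left₀ (by positivity) ?_ _
          have := mul_le_of_le_one_left hρ0 hl1
          linarith
      _ ≤ (1 - l) ^ w + w * 2 ^ w * δ := pow_add_le77 w hl1' (by linarith) hδ0.le hδ1
      _ ≤ (1 - l) ^ w + η1 / 4 := by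
          have e : δ * E = w * 2 ^ w * δ + δ := by rw [hE]; ring
          linarith
  -- first case
  set u : ℕ := ⌈ρ * A⌉₊ with hu
  have hu0 : 0 < u := Nat.ceil_pos.2 (mul_pos (hδ0.trans_le hρδ) hA0)
  have hu1 : ρ * A ≤ u := Nat.le_ceil _
  have hu2 : (u : ℝ) < ρ * A + 1 := Nat.ceil_lt_add_one (by positivity)
  have huA : u ≤ A := by
    exact Nat.ceil_le.2 (mul_le_of_le_one_left hA0.le hρ1)
  have hu0' : (0 : ℝ) < u := by exact_mod_cast hu0
  set t1 : ℕ := ⌊(1 - l) * L / u⌋₊ with ht1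
  have ht1a : (t1 : ℝ) * u ≤ (1 - l) * L := by
    have : (t1 : ℝ) ≤ (1 - l) * L / u := Nat.floor_le (by positivity)
    rwa [le_div_iff₀ hu0'] at this
  have ht1b : (1 - l) * L < (t1 + 1) * u := by
    have : (1 - l) * L / u < t1 + 1 := Nat.lt_floor_add_one _
    rwa [div_lt_iff₀ hu0'] at this
  have htot : t2 * A + t1 * u ≤ L := by
    have : (t2 : ℝ) * A + t1 * u ≤ L := by linarith
    exact_mod_cast this
  have hgL : t2 + t1 ≤ L := by
    have h1 : t2 * 1 ≤ t2 * A := Nat.mul_le_mul_left _ (by omega)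
    have h2 : t1 * 1 ≤ t1 * u := Nat.mul_le_mul_left _ hu0
    omega
  -- the number of factors
  obtain ⟨X, hXd⟩ : ∃ X : ℝ, X = (1 - l) + l * ρ := ⟨_, rfl⟩
  rw [← hXd] at hX
  have hX0 : 0 ≤ X := by rw [hXd]; positivity
  have hX1 : X ≤ 1 := by
    have := mul_le_of_le_one_right hl hρ1
    rw [hXd]
    linarith
  obtain ⟨κ, hκ⟩ : ∃ κ : ℝ, κ = 1 / (δ * A) + 2 * A / L := ⟨_, rfl⟩
  have hκ0 : 0 ≤ κ := by rw [hκ]; positivity
  have hκE : κ * E ≤ η1 / 4 := by
    have h1 : 1 / (δ * A) * E ≤ η1 / 8 := by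
      rw [div_mul_eq_mul_div, one_mul, div_le_iff₀ (by positivity)]
      have e : η1 / 8 * (δ * A) = A * (δ * η1) / 8 := by ring
      rw [e]
      linarith
    have h2 : 2 * A / L * E ≤ η1 / 8 := by
      rw [div_mul_eq_mul_div, div_le_iff₀ hL0]
      have h3 : (E * A) * 1 ≤ (E * A) * B' := mul_le_mul_of_nonneg_left hB'1 (by positivity)
      have e : 16 * E * B' * A = 16 * ((E * A) * B') := by ring
      have e2 : 2 * A * E = 2 * ((E * A) * 1) := by ring
      have e3 : η1 / 8 * L = L * η1 / 8 := by ring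
      rw [e] at hAL
      rw [e2, e3]
      linarith
    rw [hκ, add_mul]
    linarith
  have hκ1 : κ ≤ 1 := by
    have := mul_le_mul_of_nonneg_left hE1 hκ0
    linarith
  have hgX : X - κ ≤ ((t2 + t1 : ℕ) : ℝ) * ρ * A / L := by
    rw [hκ, hXd]
    push_cast
    exact cnt77 hl hl1 hρ0 hρ1 hδ0 hρδ hA0 hL0 (Nat.cast_nonneg _) hu1 hu2 ht1b ht2c
  obtain ⟨x, hx⟩ : ∃ x : ℝ, x = max 0 (X - κ) := ⟨_, rfl⟩
  have hx0 : 0 ≤ x := by rw [hx]; exact le_max_left _ _
  have hx1 : x ≤ 1 := by rw [hx]; exact max_le zero_le_one (by linarith)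
  have hxg : x * L ≤ ((t2 + t1 : ℕ) : ℝ) * ρ * A := by
    rw [← le_div_iff₀ hL0, hx]
    exact max_le (by positivity) hgX
  have hxX : X ^ w ≤ x ^ w + η1 / 4 := by
    calc X ^ w ≤ (x + κ) ^ w := by
          refine pow_le_pow_left₀ hX0 ?_ _
          have : X - κ ≤ x := by rw [hx]; exact le_max_right _ _
          linarith
      _ ≤ x ^ w + w * 2 ^ w * κ := pow_add_le77 w hx0 hx1 hκ0 hκ1
      _ ≤ x ^ w + η1 / 4 := by
          have e : κ * E = w * 2 ^ w * κ + κ := by rw [hE]; ring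
          linarith
  have hmain : (((1 - l) + l * y) ^ n - η) * finrank k ↥(V ^ M) ≤ (x * L) ^ w * Db := by
    have h1 : ((1 - l) + l * y) ^ n - η ≤ x ^ w - η1 / 4 := by linarith
    refine (mul_le_mul_of_nonneg_right h1 (Nat.cast_nonneg _)).trans ?_
    rw [mul_pow, mul_assoc]
    exact fin77 (by positivity) (pow_le_one₀ hx0 hx1) (by positivity) (Nat.cast_nonneg _)
      (by rw [← mul_assoc]; exact hDM) (by positivity)
  rcases Nat.eq_zero_or_pos (t2 + t1) with hg0 | hg0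
  · refine hmain.trans ?_
    rw [hg0, Nat.cast_zero, zero_mul, zero_mul] at hxg
    have : x * L = 0 := le_antisymm hxg (by positivity)
    rw [this, zero_pow hw0.ne', zero_mul]
    exact Nat.cast_nonneg _
  refine hred ((V ^ (u * b + qs)) ^ t1 * Q (t2 + t1)) ((u * b + qs) * t1 + qf (t2 + t1)) ?_ ?_ _ (hmain.trans ?_)
  · calc (V ^ (u * b + qs)) ^ t1 * Q (t2 + t1) ≤ (V ^ (u * b + qs)) ^ t1 * V ^ qf (t2 + t1) := mul_le_mul' le_rfl (hQ _ hg0)
      _ = V ^ ((u * b + qs) * t1 + qf (t2 + t1)) := by rw [← pow_mul, ← pow_add]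
  · have h1 := hqs (t2 + t1) hgL
    have h2 : (t2 + t1) * qs ≤ L * qs := Nat.mul_le_mul_right _ hgL
    have h3 : (t2 * A + t1 * u) * b ≤ L * b := Nat.mul_le_mul_right _ htot
    have e1 : t2 * a + ((u * b + qs) * t1 + qf (t2 + t1)) = (t2 * A + t1 * u) * b + ((t2 + t1) * qs + qf (t2 + t1)) := by
      rw [ha]; ring
    have e2 : M = L * b + (L * qs + (qs + qs)) := by rw [hM, hq0]; ring
    rw [e1, e2]
    exact Nat.add_le_add h3 (Nat.add_le_add h2 (by omega))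
  · have h1 := hb (t2 + t1) hg0 (Fin.append (fun _ : Fin t2 => a) (fun _ : Fin t1 => u * b + qs))
      (Fin.append (fun _ : Fin t2 => Aa) (fun _ : Fin t1 => V ^ (u * b + qs))) (by
        intro i
        refine Fin.addCases (fun i => ?_) (fun i => ?_) i
        · rw [Fin.append_left, Fin.append_left]; exact hAa'.trans inf_le_left
        · rw [Fin.append_right, Fin.append_right])
    have h2 := bm_min77 hg0 h1 (x := ρ ^ w * (A : ℝ) ^ w * Db) (by positivity) (by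
      intro i
      refine Fin.addCases (fun i => ?_) (fun i => ?_) i
      · rw [Fin.append_left]
        refine le_trans ?_ hya
        rw [hρy, mul_assoc]
        exact mul_le_mul_of_nonneg_left hDa (by positivity)
      · rw [Fin.append_right]
        refine le_trans ?_ (R u b qs hu0 (hqs u (huA.trans hALn)))
        rw [← mul_pow, hDb]
        exact mul_le_mul_of_nonneg_right (pow_le_pow_left₀ (by positivity) hu1 _) (by positivity))
    have e : (∏ i, Fin.append (fun _ : Fin t2 => Aa) (fun _ : Fin t1 => V ^ (u * b + qs)) i) * Q (t2 + t1) =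
        Aa ^ t2 * ((V ^ (u * b + qs)) ^ t1 * Q (t2 + t1)) := by
      rw [Fin.prod_univ_add]
      simp only [Fin.append_left, Fin.append_right, Finset.prod_const, Finset.card_univ, Fintype.card_fin]
      rw [mul_assoc]
    rw [e] at h2
    refine le_trans ?_ h2
    calc (x * L) ^ w * Db ≤ (((t2 + t1 : ℕ) : ℝ) * ρ * A) ^ w * Db :=
          mul_le_mul_of_nonneg_right (pow_le_pow_left₀ (by positivity) hxg _) (by positivity)
      _ = _ := by rw [mul_pow, mul_pow]; ring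

end

end Pool.Agent.SQ
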